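import Pool.Agent.REV.StmtsA1

set_option autoImplicit false

namespace Pool.Agent.REV.H89

open Set

/-- the ratio inequality -/
lemma ratio (lam N e x y : ℝ) (h0 : 0 ≤ lam) (h1 : lam ≤ 1) (hN : 0 ≤ N) (he : 0 ≤ e)
    (hx : 0 ≤ x) (hxy : x ≤ y) :
    ((1 + e * y) / (1 + e * x)) ^ (lam * N) ≤ ((1 + lam * e * y) / (1 + lam * e * x)) ^ N := by
  have hy : 0 ≤ y := hx.trans hxy
  have hex : 0 ≤ e * x := mul_nonneg he hx
  have hey : 0 ≤ e * y := mul_nonneg he hy
  have hP : 0 < 1 + e * x := by linarith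
  have hlx : 0 ≤ lam * e * x := by positivity
  have hA : 0 < 1 + lam * e * x := by linarith
  have hr : -1 ≤ (1 + e * y) / (1 + e * x) - 1 := by
    have : 0 ≤ (1 + e * y) / (1 + e * x) := by positivity
    linarith
  have hb := rpow_one_add_le_one_add_mul_self hr h0 h1
  rw [add_sub_cancel] at hb
  have hr0 : 0 ≤ (1 + e * y) / (1 + e * x) := by positivity
  have h2 : 1 + lam * ((1 + e * y) / (1 + e * x) - 1) ≤
      (1 + lam * e * y) / (1 + lam * e * x) := by
    have e1 : (1 + e * y) / (1 + e * x) - 1 = e * (y - x) / (1 + e * x) := by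
      field_simp
      ring
    have e2 : (1 + lam * e * y) / (1 + lam * e * x) = 1 + lam * e * (y - x) / (1 + lam * e * x) := by
      field_simp
      ring
    rw [e1, e2, ← mul_div_assoc, ← mul_assoc]
    have h3 : 0 ≤ lam * e * (y - x) := mul_nonneg (mul_nonneg h0 he) (by linarith)
    have h4 : 1 + lam * e * x ≤ 1 + e * x := by nlinarith
    have h5 := div_le_div_of_nonneg_left h3 hA h4
    linarith
  rw [Real.rpow_mul hr0]
  exact Real.rpow_le_rpow (Real.rpow_nonneg hr0 _) (hb.trans h2) hN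

/-- the basic monotonicity -/
lemma mono (lam N e x y : ℝ) (h0 : 0 ≤ lam) (h1 : lam ≤ 1) (hN : 0 ≤ N) (he : 0 ≤ e)
    (hx : 0 ≤ x) (hxy : x ≤ y) :
    (1 + lam * e * x) ^ N * (1 + e * x) ^ (-(lam * N)) ≤
      (1 + lam * e * y) ^ N * (1 + e * y) ^ (-(lam * N)) := by
  have hr := ratio lam N e x y h0 h1 hN he hx hxy
  have hy : 0 ≤ y := hx.trans hxy
  have hex : 0 ≤ e * x := mul_nonneg he hx
  have hey : 0 ≤ e * y := mul_nonneg he hy
  have hlx : 0 ≤ lam * e * x := by positivity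
  have hly : 0 ≤ lam * e * y := by positivity
  have hP : 0 < 1 + e * x := by linarith
  have hQ : 0 < 1 + e * y := by linarith
  have hA : 0 < 1 + lam * e * x := by linarith
  have hB : 0 < 1 + lam * e * y := by linarith
  rw [Real.div_rpow hQ.le hP.le, Real.div_rpow hB.le hA.le,
    div_le_div_iff₀ (Real.rpow_pos_of_pos hP _) (Real.rpow_pos_of_pos hA _)] at hr
  rw [Real.rpow_neg hP.le, Real.rpow_neg hQ.le, ← div_eq_mul_inv, ← div_eq_mul_inv,
    div_le_div_iff₀ (Real.rpow_pos_of_pos hP _) (Real.rpow_pos_of_pos hQ _)]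
  linarith

lemma lamBound (n i : ℕ) (h : i + 1 ≤ n) : 0 ≤ ((i : ℝ) + 2) / ((n : ℝ) + 1) ∧
    ((i : ℝ) + 2) / ((n : ℝ) + 1) ≤ 1 ∧ 0 ≤ ((n : ℝ) + 1) / 2 ∧
    ((i : ℝ) + 2) / ((n : ℝ) + 1) * (((n : ℝ) + 1) / 2) = ((i : ℝ) + 2) / 2 := by
  have hn : (0 : ℝ) < (n : ℝ) + 1 := by positivity
  have h1 : (i : ℝ) + 1 ≤ n := by exact_mod_cast h
  refine ⟨by positivity, ?_, by positivity, ?_⟩
  · rw [div_le_one hn]
    linarith
  · field_simp

theorem lwb : LwbStmt := by
  intro n i e hin he x hx y hy hxy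
  obtain ⟨h0, h1, hN, hK⟩ := lamBound n i hin
  have hm := mono _ _ e x y h0 h1 hN he hx.1 hxy
  have he1 : 0 < 1 + e := by linarith
  have hb : ∀ t : ℝ, 1 / (1 + e) + (1 - 1 / (1 + e)) * t = (1 + e)⁻¹ * (1 + e * t) := by
    intro t
    field_simp
    ring
  show _ * _ ≤ _ * _
  rw [hK] at hm
  have hpx : 0 ≤ 1 + e * x := by
    have := mul_nonneg he hx.1
    linarith
  have hpy : 0 ≤ 1 + e * y := by
    have := mul_nonneg he hy.1
    linarith
  rw [hb x, hb y, Real.mul_rpow (by positivity) hpx, Real.mul_rpow (by positivity) hpy,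
    mul_left_comm, mul_left_comm ((1 + ((i : ℝ) + 2) / ((n : ℝ) + 1) * e * y) ^ _)]
  exact mul_le_mul_of_nonneg_left hm (Real.rpow_nonneg (by positivity) _)

end Pool.Agent.REV.H89
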