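import Pool.Agent.REV.StmtsG2

set_option autoImplicit false

namespace Pool.Agent.REV.H89

open MeasureTheory Set

/-- the weight integral -/
noncomputable def wI (q : ℝ → ℝ) (p : ℝ) (φ : ℝ → ℝ) (c : ℝ) : ℝ :=
  ∫ r in (0 : ℝ)..1, q r * (1 - r ^ 2) ^ p * φ (r * c)

lemma wgt {r p : ℝ} (hr : r ∈ Icc (0 : ℝ) 1) (hp : 0 ≤ p) :
    0 ≤ (1 - r ^ 2) ^ p ∧ (1 - r ^ 2) ^ p ≤ 1 := by
  have h1 : 0 ≤ 1 - r ^ 2 := by nlinarith [hr.1, hr.2]
  have h2 : 1 - r ^ 2 ≤ 1 := by nlinarith [sq_nonneg r]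
  exact ⟨Real.rpow_nonneg h1 _, Real.rpow_le_one h1 h2 hp⟩

lemma wI_meas (q : ℝ → ℝ) (p : ℝ) (φ : ℝ → ℝ) (hq : Measurable q) (hφ : Measurable φ) :
    Measurable (wI q p φ) := by
  have h1 : Measurable (fun z : ℝ × ℝ => q z.2 * (1 - z.2 ^ 2) ^ p * φ (z.2 * z.1)) := by
    refine Measurable.mul (Measurable.mul (hq.comp measurable_snd) ?_) ?_
    · exact (measurable_const.sub (measurable_snd.pow_const 2)).pow_const p
    · exact hφ.comp (measurable_snd.mul measurable_fst)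
  have h2 : StronglyMeasurable (fun c : ℝ =>
      ∫ r, (fun z : ℝ × ℝ => q z.2 * (1 - z.2 ^ 2) ^ p * φ (z.2 * z.1)) (c, r)
        ∂(volume.restrict (Ioc (0 : ℝ) 1))) :=
    h1.stronglyMeasurable.integral_prod_right'
  have h3 : wI q p φ = fun c : ℝ =>
      ∫ r, (fun z : ℝ × ℝ => q z.2 * (1 - z.2 ^ 2) ^ p * φ (z.2 * z.1)) (c, r)
        ∂(volume.restrict (Ioc (0 : ℝ) 1)) := by
    funext c
    unfold wI
    rw [intervalIntegral.integral_of_le zero_le_one]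
  rw [h3]
  exact h2.measurable

lemma wI_bound (q : ℝ → ℝ) (p : ℝ) (φ : ℝ → ℝ) (C : ℝ) (hp : 0 ≤ p)
    (hq : ∀ r ∈ Icc (0 : ℝ) 1, 0 ≤ q r ∧ q r ≤ 1) (hφ : ∀ t, 0 ≤ φ t) (hC : ∀ t, φ t ≤ C)
    (c : ℝ) : 0 ≤ wI q p φ c ∧ wI q p φ c ≤ C := by
  have hC0 : 0 ≤ C := (hφ 0).trans (hC 0)
  constructor
  · refine intervalIntegral.integral_nonneg zero_le_one fun r hr => ?_
    exact mul_nonneg (mul_nonneg (hq r hr).1 (wgt hr hp).1) (hφ _)
  · have h1 : ‖∫ r in (0 : ℝ)..1, q r * (1 - r ^ 2) ^ p * φ (r * c)‖ ≤ C * |(1 : ℝ) - 0| := by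
      refine intervalIntegral.norm_integral_le_of_norm_le_const fun r hr => ?_
      rw [uIoc_of_le zero_le_one] at hr
      have hr' : r ∈ Icc (0 : ℝ) 1 := ⟨hr.1.le, hr.2⟩
      obtain ⟨a1, a2⟩ := hq r hr'
      obtain ⟨b1, b2⟩ := wgt hr' hp
      rw [Real.norm_of_nonneg (mul_nonneg (mul_nonneg a1 b1) (hφ _))]
      calc q r * (1 - r ^ 2) ^ p * φ (r * c) ≤ 1 * φ (r * c) :=
            mul_le_mul_of_nonneg_right (mul_le_one₀ a2 b1 b2) (hφ _)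
        _ = φ (r * c) := one_mul _
        _ ≤ C := hC _
    rw [sub_zero, abs_one, mul_one] at h1
    exact (le_abs_self _).trans h1

lemma RA_eq (n : ℕ) (φ : ℝ → ℝ) : RA n φ = wI (fun _ => 1) (((n : ℝ) - 2) / 2) φ := by
  funext c
  unfold RA wI
  simp only [one_mul]

lemma RB_eq (n : ℕ) (φ : ℝ → ℝ) : RB n φ = wI (fun r => r ^ 2) (((n : ℝ) - 4) / 2) φ := by
  funext c
  unfold RB wI
  rfl

theorem ttp : TtpStmt := by
  intro n i c1 c2 φ hn h1 h2 hφ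
  obtain ⟨C, hC⟩ := hφ.bdd
  have hC0 : 0 ≤ C := (hφ.nonneg 0).trans (hC 0)
  have hn' : (4 : ℝ) ≤ n := by exact_mod_cast hn
  have hRA : ∀ c, 0 ≤ RA n φ c ∧ RA n φ c ≤ C := by
    rw [RA_eq]
    exact wI_bound _ _ φ C (by linarith) (fun r _ => ⟨zero_le_one, le_rfl⟩) hφ.nonneg hC
  have hRB : ∀ c, 0 ≤ RB n φ c ∧ RB n φ c ≤ C := by
    rw [RB_eq]
    exact wI_bound _ _ φ C (by linarith)
      (fun r hr => ⟨sq_nonneg r, pow_le_one₀ hr.1 hr.2⟩) hφ.nonneg hC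
  have mRA : Measurable (RA n φ) := by
    rw [RA_eq]
    exact wI_meas _ _ φ measurable_const hφ.meas
  have mRB : Measurable (RB n φ) := by
    rw [RB_eq]
    exact wI_meas _ _ φ (measurable_id.pow_const 2) hφ.meas
  have ms : Measurable (fun t : ℝ => Real.sqrt (1 - t ^ 2)) :=
    (measurable_const.sub (measurable_id.pow_const 2)).sqrt
  refine ⟨?_, ?_, ?_⟩
  · unfold TT
    exact (((mRA.comp ms).pow_const i).const_mul c1).add
      (((mRB.comp ms).mul ((mRA.comp ms).pow_const (i - 1))).const_mul c2)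
  · intro t
    unfold TT
    have a := hRA (Real.sqrt (1 - t ^ 2))
    have b := hRB (Real.sqrt (1 - t ^ 2))
    exact add_nonneg (mul_nonneg h1 (pow_nonneg a.1 _))
      (mul_nonneg h2 (mul_nonneg b.1 (pow_nonneg a.1 _)))
  · refine ⟨c1 * C ^ i + c2 * (C * C ^ (i - 1)), fun t => ?_⟩
    unfold TT
    have a := hRA (Real.sqrt (1 - t ^ 2))
    have b := hRB (Real.sqrt (1 - t ^ 2))
    refine add_le_add (mul_le_mul_of_nonneg_left (pow_le_pow_left₀ a.1 a.2 i) h1)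
      (mul_le_mul_of_nonneg_left ?_ h2)
    exact mul_le_mul b.2 (pow_le_pow_left₀ a.1 a.2 _) (pow_nonneg a.1 _) hC0

end Pool.Agent.REV.H89
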