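import Pool.Agent.REV.StmtsV3

set_option autoImplicit false

/-! Squad REV, module VP3: the function `s wb(b,s)^(1/2)` and its derivative. -/

namespace Pool.Agent.REV.H89

open Set MeasureTheory Filter
open scoped Topology

theorem wb_eq {b s : ℝ} (hb : 0 < b) (hs : 0 < s) :
    wb b s = (s ^ 2 - (1 / b) ^ 2) / s ^ 2 := by
  unfold wb
  field_simp

theorem psd_eq {b s : ℝ} (hb : 0 < b) (hs : 1 / b < s) :
    psd 3 b s = s / Real.sqrt (s ^ 2 - (1 / b) ^ 2) := by
  have ha : 0 < 1 / b := by positivity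
  have hs0 : 0 < s := ha.trans hs
  have hd : 0 < s ^ 2 - (1 / b) ^ 2 := by nlinarith
  obtain ⟨q, hq⟩ : ∃ q, q = Real.sqrt (s ^ 2 - (1 / b) ^ 2) := ⟨_, rfl⟩
  have hq0 : 0 < q := by
    rw [hq]
    exact Real.sqrt_pos.2 hd
  have hq2 : q ^ 2 = s ^ 2 - (1 / b) ^ 2 := by
    rw [hq]
    exact Real.sq_sqrt hd.le
  have hw : wb b s = (q / s) ^ 2 := by
    rw [wb_eq hb hs0, ← hq2]
    ring
  have hqs : 0 < q / s := div_pos hq0 hs0
  have e1 : wb b s ^ ((((3 : ℕ) : ℝ) - 2) / 2) = q / s := by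
    rw [hw, ← Real.rpow_natCast, ← Real.rpow_mul hqs.le]
    norm_num
  have e2 : wb b s ^ ((((3 : ℕ) : ℝ) - 4) / 2) = (q / s)⁻¹ := by
    rw [hw, ← Real.rpow_natCast, ← Real.rpow_mul hqs.le]
    norm_num
    rw [Real.rpow_neg_one, inv_div]
  unfold psd
  rw [e1, e2, ← hq]
  have e3 : ((b * s) ^ 2)⁻¹ = (1 / b) ^ 2 / s ^ 2 := by
    field_simp
  have e4 : (1 / b) ^ 2 = s ^ 2 - q ^ 2 := by linarith
  rw [e3, e4]
  field_simp
  push_cast
  ring

theorem vp3 : Vp3Stmt := by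
  intro b hb
  have ha : 0 < 1 / b := by positivity
  have hpos : ∀ s : ℝ, 1 / b < s → 0 < s ^ 2 - (1 / b) ^ 2 := fun s hs => by nlinarith
  have hnn : ∀ s : ℝ, 1 / b < s → 0 ≤ psd 3 b s := fun s hs => by
    rw [psd_eq hb hs]
    exact div_nonneg (ha.trans hs).le (Real.sqrt_nonneg _)
  refine ⟨fun s hs => ⟨psd_eq hb hs, hnn s hs⟩, fun s hs => ?_, fun β hβ => ?_⟩
  · have h1 : 1 / b < s := by
      have : 2 / b = 1 / b + 1 / b := by ring
      linarith
    have hs0 : 0 < s := ha.trans h1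
    have h2 : 2 * (1 / b) ≤ s := by
      have : 2 / b = 2 * (1 / b) := by ring
      linarith
    rw [psd_eq hb h1, div_le_iff₀ (Real.sqrt_pos.2 (hpos s h1))]
    have h3 : s / 2 ≤ Real.sqrt (s ^ 2 - (1 / b) ^ 2) := by
      refine Real.le_sqrt_of_sq_le ?_
      nlinarith
    linarith
  · have hderiv : ∀ s ∈ Ioo (1 / b) β,
        HasDerivAt (fun u => Real.sqrt (u ^ 2 - (1 / b) ^ 2)) (psd 3 b s) s := by
      intro s hs
      have h1 : HasDerivAt (fun u : ℝ => u ^ 2 - (1 / b) ^ 2) (2 * s) s := by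
        simpa using (hasDerivAt_pow 2 s).sub_const ((1 / b) ^ 2)
      have h2 := h1.sqrt (hpos s hs.1).ne'
      rw [psd_eq hb hs.1]
      refine h2.congr_deriv ?_
      rw [mul_div_mul_left _ _ (two_ne_zero)]
    have hcont : ContinuousOn (fun u => Real.sqrt (u ^ 2 - (1 / b) ^ 2)) (Icc (1 / b) β) := by
      refine Continuous.continuousOn ?_
      fun_prop
    have hint : IntervalIntegrable (psd 3 b) volume (1 / b) β := by
      rw [intervalIntegrable_iff_integrableOn_Ioc_of_le hβ]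
      exact intervalIntegral.integrableOn_deriv_of_nonneg hcont hderiv fun s hs => hnn s hs.1
    refine ⟨hint, ?_⟩
    rw [intervalIntegral.integral_eq_sub_of_hasDerivAt_of_le hβ hcont hderiv hint, sub_self,
      Real.sqrt_zero, sub_zero]
    have hβ0 : 0 < β := ha.trans_le hβ
    rw [wb_eq hb hβ0, ← Real.sqrt_eq_rpow, Real.sqrt_div' _ (sq_nonneg β), Real.sqrt_sq hβ0.le]
    field_simp

end Pool.Agent.REV.H89
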