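import Pool.Agent.REV.StmtsA2

set_option autoImplicit false

namespace Pool.Agent.REV.H89

open Set

/-- growth of the first factor -/
lemma gluFactor (n i : ℕ) (B s t : ℝ) (hin : i + 2 ≤ n) (hs : 0 < s) (hst : s ≤ t)
    (hB : (i : ℝ) + 2 ≤ B * s ^ 2) :
    (1 + B * s ^ 2) ^ (((n : ℝ) + 1) / 2) * (t / s) ^ (i + 2) ≤
      (1 + B * t ^ 2) ^ (((n : ℝ) + 1) / 2) := by
  have hi0 : (0 : ℝ) ≤ i := Nat.cast_nonneg i
  have hn : (i : ℝ) + 2 ≤ n := by exact_mod_cast hin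
  have hbs : 0 < B * s ^ 2 := by linarith
  have hs2 : 0 < s ^ 2 := by positivity
  have hB0 : 0 < B := by
    by_contra h
    push Not at h
    have := mul_nonpos_of_nonpos_of_nonneg h hs2.le
    linarith
  have hP : 0 < 1 + B * s ^ 2 := by linarith
  have hts : 1 ≤ t / s := by rwa [one_le_div hs]
  obtain ⟨X, hX⟩ : ∃ X : ℝ, X = (t / s) ^ 2 := ⟨_, rfl⟩
  have hX1 : 1 ≤ X := by rw [hX]; exact one_le_pow₀ hts
  obtain ⟨μ, hμ⟩ : ∃ μ : ℝ, μ = B * s ^ 2 / (1 + B * s ^ 2) := ⟨_, rfl⟩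
  have hμ0 : 0 ≤ μ := by rw [hμ]; positivity
  have hμ1 : μ ≤ 1 := by
    rw [hμ, div_le_one hP]
    linarith
  have hbern := rpow_one_add_le_one_add_mul_self (s := X - 1) (by linarith) hμ0 hμ1
  rw [add_sub_cancel] at hbern
  have h1 : 1 + B * t ^ 2 = (1 + B * s ^ 2) * (1 + μ * (X - 1)) := by
    rw [hμ, hX]
    field_simp
    ring
  have hX0 : 0 ≤ X := by linarith
  have h2 : (t / s) ^ (i + 2) ≤ (1 + μ * (X - 1)) ^ (((n : ℝ) + 1) / 2) := by
    have h3 : ((t / s) ^ (i + 2) : ℝ) = X ^ (((i : ℝ) + 2) / 2) := by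
      rw [hX, ← Real.rpow_natCast (t / s) (i + 2), ← Real.rpow_natCast (t / s) 2,
        ← Real.rpow_mul (by linarith)]
      congr 1
      push_cast
      ring
    rw [h3]
    have h4 : ((i : ℝ) + 2) / 2 ≤ μ * (((n : ℝ) + 1) / 2) := by
      rw [hμ, div_mul_eq_mul_div, le_div_iff₀ hP]
      nlinarith
    calc X ^ (((i : ℝ) + 2) / 2) ≤ X ^ (μ * (((n : ℝ) + 1) / 2)) :=
          Real.rpow_le_rpow_of_exponent_le hX1 h4
      _ = (X ^ μ) ^ (((n : ℝ) + 1) / 2) := Real.rpow_mul hX0 _ _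
      _ ≤ (1 + μ * (X - 1)) ^ (((n : ℝ) + 1) / 2) :=
          Real.rpow_le_rpow (Real.rpow_nonneg hX0 _) hbern (by positivity)
  have h5 : 0 ≤ 1 + μ * (X - 1) := by
    have := mul_nonneg hμ0 (by linarith : (0 : ℝ) ≤ X - 1)
    linarith
  rw [h1, Real.mul_rpow hP.le h5]
  exact mul_le_mul_of_nonneg_left h2 (Real.rpow_nonneg hP.le _)

theorem glu : GluStmt := by
  intro n i B t1 g hn4 hi1 hin ht1 ht1' hB hg hm hmono
  have hright : MonotoneOn (El n (1 + B) g) (Icc t1 1) := by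
    intro s hs t ht hst
    have hs0 : 0 < s := lt_of_lt_of_le ht1 hs.1
    have hi0 : (0 : ℝ) ≤ i := Nat.cast_nonneg i
    have hB0 : 0 ≤ B := by
      by_contra h
      push Not at h
      have := mul_nonpos_of_nonpos_of_nonneg h.le (sq_nonneg t1)
      linarith
    have hBs : (i : ℝ) + 2 ≤ B * s ^ 2 := by
      have h1 : t1 ^ 2 ≤ s ^ 2 := pow_le_pow_left₀ ht1.le hs.1 2
      have h2 := mul_le_mul_of_nonneg_left h1 hB0
      linarith
    have hf := gluFactor n i B s t hin hs0 hst hBs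
    have hm1 : s ^ (i + 2) * g s ≤ t ^ (i + 2) * g t :=
      hmono ⟨hs0.le, hs.2⟩ ⟨(hs0.le.trans hst), ht.2⟩ hst
    have hgt : 0 ≤ g t := hg t ⟨(hs0.le.trans hst), ht.2⟩
    have h3 : g s ≤ (t / s) ^ (i + 2) * g t := by
      rw [div_pow, div_mul_eq_mul_div, le_div_iff₀ (pow_pos hs0 _)]
      linarith
    unfold El
    rw [add_sub_cancel_left]
    have hP : 0 ≤ 1 + B * s ^ 2 := by linarith
    calc (1 + B * s ^ 2) ^ (((n : ℝ) + 1) / 2) * g s
        ≤ (1 + B * s ^ 2) ^ (((n : ℝ) + 1) / 2) * ((t / s) ^ (i + 2) * g t) :=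
          mul_le_mul_of_nonneg_left h3 (Real.rpow_nonneg hP _)
      _ = (1 + B * s ^ 2) ^ (((n : ℝ) + 1) / 2) * (t / s) ^ (i + 2) * g t := by ring
      _ ≤ (1 + B * t ^ 2) ^ (((n : ℝ) + 1) / 2) * g t :=
          mul_le_mul_of_nonneg_right hf hgt
  unfold Low
  have h := hm.union_right hright ⟨⟨ht1.le, le_rfl⟩, fun x hx => hx.2⟩
    ⟨⟨le_rfl, ht1'⟩, fun x hx => hx.1⟩
  rwa [Icc_union_Icc_eq_Icc ht1.le ht1'] at h

end Pool.Agent.REV.H89
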