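import Pool.Agent.REV.StmtsC

set_option autoImplicit false

/-! Squad REV, module CEN: a solution of order `n - 1` is a translate of a centred solution. -/

open MeasureTheory Module Set Filter
open scoped RealInnerProductSpace Pointwise Topology ENNReal

namespace Pool.Agent.REV.H89

open Pool.Agent.Helper55_PB Pool.Agent.Helper28_PB

theorem cen (hP : PboStmt) : CenStmt := by
  intro E _ _ _ _ _ K L hE hK hL hH
  obtain ⟨a, K', c, hKK', hG⟩ := exists_good (K := K) ⟨hK, L, (hP K L hE hK).1 hL, hH⟩
  refine ⟨-a, K', c, ?_, hG⟩
  rw [hKK', image_image]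
  simp

end Pool.Agent.REV.H89
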