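import Pool.Agent.REV.StmtsV

set_option autoImplicit false

/-! Squad REV, module VST: the self improving inequality of the limit. -/

namespace Pool.Agent.REV.H89

open Set MeasureTheory Filter
open scoped Topology

theorem int_inv_sq {b : ℝ} (hb : 0 < b) :
    IntegrableOn (fun β : ℝ => (β ^ 2)⁻¹) (Ioi b) := by
  have h1 : IntegrableOn (fun β : ℝ => β ^ (-2 : ℝ)) (Ioi b) :=
    integrableOn_Ioi_rpow_of_lt (by norm_num) hb
  refine h1.congr_fun (fun β hβ => ?_) measurableSet_Ioi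
  have h0 : 0 < β := hb.trans hβ
  show β ^ (-2 : ℝ) = (β ^ 2)⁻¹
  rw [Real.rpow_neg h0.le]
  norm_num

theorem vst (vlm : VlmStmt) (vku : VkuStmt) (vks : VksStmt) : VstStmt := by
  intro n C σ R F s y D hn hC hσ hR h
  have hnR : (4 : ℝ) ≤ n := by exact_mod_cast hn
  have hc3 : 0 < c3 n C := by
    unfold c3
    exact div_pos hC (mul_pos (by linarith) (by linarith))
  have hyR : ∀ b : ℝ, 0 < b → y b ≤ R := by
    intro b hb
    refine ge_of_tendsto h.top ?_
    filter_upwards [eventually_ge_atTop b] with b' hb'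
    exact h.mono hb (hb.trans_le hb') hb'
  have hae : ∀ b : ℝ, ∀ᵐ β ∂(volume.restrict (Ioi b)), β ∉ D := fun b =>
    ae_restrict_of_ae (h.cnt.ae_notMem volume)
  have hint : ∀ b : ℝ, 0 < b → IntegrableOn (fun β : ℝ => (β ^ 2)⁻¹ * y β ^ (n - 1)) (Ioi b) := by
    intro b hb
    have h1 : AEMeasurable y (volume.restrict (Ioi b)) :=
      aemeasurable_restrict_of_monotoneOn measurableSet_Ioi
        (h.mono.mono (Ioi_subset_Ioi hb.le))
    have h2 : AEStronglyMeasurable (fun β : ℝ => (β ^ 2)⁻¹ * y β ^ (n - 1))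
        (volume.restrict (Ioi b)) :=
      ((measurable_id.pow_const 2).inv.aemeasurable.mul (h1.pow_const (n - 1))).aestronglyMeasurable
    refine Integrable.mono' ((int_inv_sq hb).mul_const (R ^ (n - 1))) h2 ?_
    filter_upwards [ae_restrict_mem measurableSet_Ioi] with β hβ
    have h0 : 0 < β := hb.trans hβ
    have h3 := h.nonneg β h0
    rw [Real.norm_eq_abs, abs_of_nonneg (by positivity)]
    exact mul_le_mul_of_nonneg_left (pow_le_pow_left₀ h3 (hyR β h0) _) (by positivity)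
  obtain ⟨D0, hD0⟩ : ∃ D0 : ℝ, D0 = σ * σ * C * c3 n C * R ^ (n - 2) := ⟨_, rfl⟩
  have hD0p : 0 < D0 := by
    rw [hD0]
    positivity
  have hkey : ∀ b : ℝ, 0 < b → b ∉ D →
      y b ≤ D0 * (b * ∫ β in Ioi b, (β ^ 2)⁻¹ * y β ^ (n - 1)) := by
    intro b hb hbD
    have h1 : ∀ k, yb n (F k 2) b ≤ s k 0 * s k 1 * C * c3 n C * RA n (F k 1) 1 ^ (n - 2) *
        (b * ∫ β in Ioi b, (β ^ 2)⁻¹ * ph n (F k 0) β) := by
      intro k
      refine (vku n C (s k 0) (s k 1) (F k 0) (F k 1) (F k 2) hn hC (h.spos k 0) (h.spos k 1)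
        (h.prf k 0) (h.prf k 1) (h.prf k 2) (h.st k 0 (by norm_num)) (h.st k 1 le_rfl) b hb).trans
        ?_
      have h2 := (vks n (F k 0) b hn (h.prf k 0) hb).2.2.2
      have h3 : 0 ≤ RA n (F k 1) 1 := (vlm n (F k 1) hn (h.prf k 1)).2.2.1
      have h4 := h.spos k 0
      have h5 := h.spos k 1
      exact mul_le_mul_of_nonneg_left h2 (by positivity)
    have h2 : Tendsto (fun k => yb n (F k 2) b) atTop (𝓝 (y b)) := h.ylim 2 le_rfl b hb hbD
    have h3 : Tendsto (fun k => s k 0) atTop (𝓝 σ) := h.slim 0 (by norm_num)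
    have h4 : Tendsto (fun k => s k 1) atTop (𝓝 σ) := h.slim 1 le_rfl
    have h5 : Tendsto (fun k => RA n (F k 1) 1) atTop (𝓝 R) := h.rlim 1 (by norm_num)
    have h6 : Tendsto (fun k => RA n (F k 0) 1) atTop (𝓝 R) := h.rlim 0 (by norm_num)
    have h7 : Tendsto (fun k => ∫ β in Ioi b, (β ^ 2)⁻¹ * ph n (F k 0) β) atTop
        (𝓝 (∫ β in Ioi b, (β ^ 2)⁻¹ * y β ^ (n - 1))) := by
      refine tendsto_integral_filter_of_dominated_convergence
        (fun β => (β ^ 2)⁻¹ * (R + 1) ^ (n - 1)) ?_ ?_ ((int_inv_sq hb).mul_const _) ?_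
      · exact Eventually.of_forall fun k =>
          (vks n (F k 0) b hn (h.prf k 0) hb).2.2.1.aestronglyMeasurable
      · have h8 : ∀ᶠ k in atTop, RA n (F k 0) 1 ≤ R + 1 :=
          h6.eventually_le_const (by linarith)
        filter_upwards [h8] with k hk
        filter_upwards [ae_restrict_mem measurableSet_Ioi] with β hβ
        have h0 : 0 < β := hb.trans hβ
        have h9 := (vlm n (F k 0) hn (h.prf k 0)).2.2.2.1 β h0.le
        have h10 : 0 ≤ ph n (F k 0) β := pow_nonneg h9.1 _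
        rw [Real.norm_eq_abs, abs_of_nonneg (by positivity)]
        exact mul_le_mul_of_nonneg_left (pow_le_pow_left₀ h9.1 (h9.2.trans hk) _) (by positivity)
      · filter_upwards [ae_restrict_mem measurableSet_Ioi, hae b] with β hβ hβD
        exact ((h.ylim 0 (by norm_num) β (hb.trans hβ) hβD).pow (n - 1)).const_mul _
    have h8 : Tendsto (fun k => s k 0 * s k 1 * C * c3 n C * RA n (F k 1) 1 ^ (n - 2) *
        (b * ∫ β in Ioi b, (β ^ 2)⁻¹ * ph n (F k 0) β)) atTop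
        (𝓝 (σ * σ * C * c3 n C * R ^ (n - 2) *
          (b * ∫ β in Ioi b, (β ^ 2)⁻¹ * y β ^ (n - 1)))) :=
      (((((h3.mul h4).mul_const C).mul_const (c3 n C)).mul (h5.pow (n - 2))).mul (h7.const_mul b))
    rw [hD0]
    exact le_of_tendsto_of_tendsto' h2 h8 h1
  refine ⟨D0, hD0p, fun b hb => ⟨hint b hb, ?_⟩⟩
  obtain ⟨I, hI⟩ : ∃ I : ℝ, I = ∫ β in Ioi b, (β ^ 2)⁻¹ * y β ^ (n - 1) := ⟨_, rfl⟩
  have hpos : ∀ c : ℝ, 0 < c → 0 ≤ᵐ[volume.restrict (Ioi c)] fun β : ℝ =>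
      (β ^ 2)⁻¹ * y β ^ (n - 1) := by
    intro c hc
    filter_upwards [ae_restrict_mem measurableSet_Ioi] with β hβ
    have h3 := h.nonneg β (hc.trans hβ)
    exact mul_nonneg (by positivity) (pow_nonneg h3 _)
  have hI0 : 0 ≤ I := by
    rw [hI]
    exact integral_nonneg_of_ae (hpos b hb)
  rw [← hI]
  refine le_of_forall_pos_le_add fun ε hε => ?_
  have hδ : 0 < ε / (D0 * I + 1) := div_pos hε (by positivity)
  obtain ⟨b', hb'D, hb'⟩ := (h.cnt.dense_compl ℝ).exists_between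
    (show b < b + ε / (D0 * I + 1) by linarith)
  have hb'0 : 0 < b' := hb.trans hb'.1
  have h1 : y b ≤ y b' := h.mono hb hb'0 hb'.1.le
  have h2 := hkey b' hb'0 hb'D
  have h3 : ∫ β in Ioi b', (β ^ 2)⁻¹ * y β ^ (n - 1) ≤ I := by
    rw [hI]
    exact setIntegral_mono_set (hint b hb) (hpos b hb)
      (Ioi_subset_Ioi hb'.1.le).eventuallyLE
  have h4 : D0 * (b' * ∫ β in Ioi b', (β ^ 2)⁻¹ * y β ^ (n - 1)) ≤ D0 * (b' * I) :=
    mul_le_mul_of_nonneg_left (mul_le_mul_of_nonneg_left h3 hb'0.le) hD0p.le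
  have h5 : D0 * (b' * I) ≤ D0 * ((b + ε / (D0 * I + 1)) * I) :=
    mul_le_mul_of_nonneg_left (mul_le_mul_of_nonneg_right hb'.2.le hI0) hD0p.le
  have h6 : D0 * I * (ε / (D0 * I + 1)) ≤ ε := by
    rw [mul_div_assoc', div_le_iff₀ (by positivity)]
    nlinarith
  have h7 : D0 * ((b + ε / (D0 * I + 1)) * I) = D0 * (b * I) + D0 * I * (ε / (D0 * I + 1)) := by
    ring
  linarith

end Pool.Agent.REV.H89
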